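import Mathlib

set_option autoImplicit false

namespace Pool.Agent.Results.MP_738270_al.SomeGenerators

open scoped Pointwise

/-- `w` is a palindromic word in the letters `X ∪ X⁻¹`. -/
def IsPal {G : Type*} [Group G] (X : Finset G) (w : List G) : Prop :=
  w.reverse = w ∧ ∀ x ∈ w, x ∈ X ∨ x⁻¹ ∈ X

/-- Finite palindromic width of `G` with respect to `X`. -/
def FinitePW {G : Type*} [Group G] (X : Finset G) : Prop :=
  ∃ N : ℕ, ∀ g : G, ∃ L : List (List G), L.length ≤ N ∧ (∀ w ∈ L, IsPal X w) ∧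
    (L.map List.prod).prod = g

/-- Every finitely generated group has finite palindromic width for some finite generating set. -/
theorem result (G : Type*) [Group G] [Group.FG G] :
    ∃ X : Finset G, Subgroup.closure (X : Set G) = ⊤ ∧ FinitePW X := by
  classical
  obtain ⟨S, h⟩ := Group.fg_def.1 ‹Group.FG G›
  let X := S ∪ S * S
  refine ⟨X, top_unique (h.ge.trans (Subgroup.closure_mono (by simp [X]))), S.card + 1, fun g => ?_⟩
  let R : Subgroup (G × G) := Subgroup.closure ((fun x => (x, x⁻¹)) '' X)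
  have r0 : ∀ x ∈ X, (x, x⁻¹) ∈ R := fun x hx => Subgroup.subset_closure ⟨x, hx, rfl⟩
  have x0 : ∀ x ∈ S, x ∈ X := fun x hx => Finset.mem_union_left _ hx
  have r1 : ∀ p ∈ R, ∃ w : List G, (∀ x ∈ w, x ∈ X ∨ x⁻¹ ∈ X) ∧ w.prod = p.1 ∧
      w.reverse.prod = p.2⁻¹ := fun p hp => by
    induction hp using Subgroup.closure_induction_left with
    | one => exact ⟨[], by simp, rfl, by simp⟩
    | mul_left x hx y _ ih =>
      obtain ⟨x, hx, rfl⟩ := hx
      obtain ⟨w, w1, w2, w3⟩ := ih
      exact ⟨x :: w, List.forall_mem_cons.2 ⟨.inl hx, w1⟩, by simp [w2], by simp [w3]⟩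
    | inv_mul_cancel x hx y _ ih =>
      obtain ⟨x, hx, rfl⟩ := hx
      obtain ⟨w, w1, w2, w3⟩ := ih
      exact ⟨x⁻¹ :: w, List.forall_mem_cons.2 ⟨.inr (by rwa [inv_inv]), w1⟩, by simp [w2],
        by simp [w3]⟩
  have r2 : ∀ g, g ∈ R.map (MonoidHom.snd G G) := fun g => by
    refine (h.ge.trans ((Subgroup.closure_le _).2 fun x hx => ?_)) trivial
    exact ⟨_, R.inv_mem (r0 x (x0 x hx)), inv_inv _⟩
  let N := R.comap (MonoidHom.inr G G)
  have : N.Normal := ⟨fun v hv g => by
    obtain ⟨p, hp, rfl⟩ := r2 g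
    have := R.mul_mem (R.mul_mem hp hv) (R.inv_mem hp)
    exact (congrArg (· ∈ R) (Prod.ext (by simp) (by simp))).mp this⟩
  have c : ∀ a ∈ S, ∀ b ∈ S, Commute (a : G ⧸ N) b := fun a ha b hb => by
    refine QuotientGroup.eq.2 ?_
    have := R.mul_mem (R.mul_mem (r0 (a * b) (Finset.mem_union_right _ (Finset.mul_mem_mul ha hb)))
      (R.inv_mem (r0 b (x0 b hb)))) (R.inv_mem (r0 a (x0 a ha)))
    exact (congrArg (· ∈ R) (Prod.ext (by simp) (by simp [mul_assoc]))).mp this
  have t : ∀ y : G ⧸ N, y ∈ Subgroup.closure (Set.range fun i : S => ((i : G) : G ⧸ N)) := fun y => by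
    obtain ⟨y, rfl⟩ := QuotientGroup.mk_surjective y
    refine (h.ge.trans ((Subgroup.closure_le (Subgroup.comap (QuotientGroup.mk' N)
      (Subgroup.closure (Set.range fun i : S => ((i : G) : G ⧸ N))))).2 fun x hx => ?_)) trivial
    exact Subgroup.subset_closure (Set.mem_range_self (⟨x, hx⟩ : S))
  let _ : CommGroup (G ⧸ N) := ⟨fun x y => by
    refine Subgroup.closure_induction₂ (p := fun x y _ _ => Commute x y) ?_ (by simp) (by simp)
      (fun _ _ _ _ _ _ => Commute.mul_left) (fun _ _ _ _ _ _ => Commute.mul_right)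
      (fun _ _ _ _ => Commute.inv_left) (fun _ _ _ _ => Commute.inv_right) (t x) (t y)
    rintro _ _ ⟨a, rfl⟩ ⟨b, rfl⟩
    exact c _ a.2 _ b.2⟩
  obtain ⟨m, hm⟩ := Subgroup.mem_closure_range_iff_of_fintype.1 (t g)
  have z : ∀ i : S, ∃ w : List G, IsPal X w ∧ w.prod = i ^ m i := fun i => by
    obtain ⟨k, e | e⟩ := (m i).eq_nat_or_neg
    · exact ⟨.replicate k i, ⟨by simp, fun y hy => .inl (List.eq_of_mem_replicate hy ▸ x0 _ i.2)⟩,
        by simp [e]⟩
    · exact ⟨.replicate k (i : G)⁻¹, ⟨by simp, fun y hy => .inr (by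
        rw [List.eq_of_mem_replicate hy, inv_inv]; exact x0 _ i.2)⟩, by simp [e]⟩
  choose u u1 u2 using z
  have e : (((((Finset.univ : Finset S).toList.map u).map List.prod).prod : G) : G ⧸ N) = g := by
    rw [hm, ← Finset.prod_map_toList, ← QuotientGroup.mk'_apply, map_list_prod, List.map_map,
      List.map_map]
    congr 2
    funext i
    simp [u2]
  obtain ⟨w, w1, w2, w3⟩ := r1 _ (N.inv_mem (QuotientGroup.eq.1 e))
  refine ⟨Finset.univ.toList.map u ++ [w ++ w.reverse], by simp, List.forall_mem_append.2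
    ⟨List.forall_mem_map.2 fun i _ => u1 i,
    List.forall_mem_singleton.2 ⟨by simp, fun x hx => w1 x (by simpa using hx)⟩⟩, ?_⟩
  rw [List.map_append, List.prod_append]
  generalize (((Finset.univ : Finset S).toList.map u).map List.prod).prod = y at *
  simp [w2, w3]

end Pool.Agent.Results.MP_738270_al.SomeGenerators
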